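import Pool.Agent.MP_c74ab0_al.Core

/-!
# `s(PSL_2(q)) ≤ (q - 1) (log_2 q + 2) / 2` for every prime power `q = 3 mod 4`, `q > 3`
-/

set_option autoImplicit false

namespace Pool.Agent.Results.MP_c74ab0_al.LogUpperBound

open PSLSpread

theorem log_bound {q n : ℕ} (hq : 1 ≤ q)
    (h : ∀ k : ℕ, 2 ^ (k + 1) * n ≤ (q - 1) * ((k + 1) * 2 ^ k + q)) :
    (n : ℝ) ≤ ((q : ℝ) - 1) * (Real.logb 2 q + 2) / 2 := by
  obtain ⟨k, hk⟩ : ∃ k, k = Nat.log 2 q := ⟨_, rfl⟩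
  have h1 : 2 ^ k ≤ q := by rw [hk]; exact Nat.pow_log_le_self 2 (by omega)
  have h2 : q < 2 ^ (k + 1) := by rw [hk]; exact Nat.lt_pow_succ_log_self (by norm_num) q
  have hkR : (0 : ℝ) < 2 ^ k := by positivity
  obtain ⟨θ, hθ⟩ : ∃ θ : ℝ, θ = q / 2 ^ k := ⟨_, rfl⟩
  have hqθ : (q : ℝ) = θ * 2 ^ k := by rw [hθ]; field_simp
  have hθ1 : 1 ≤ θ := by
    rw [hθ, le_div_iff₀ hkR, one_mul]
    exact_mod_cast h1
  have hθ2 : θ ≤ 2 := by
    rw [hθ, div_le_iff₀ hkR]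
    have : (q : ℝ) ≤ 2 ^ (k + 1) := by exact_mod_cast h2.le
    rw [pow_succ] at this
    linarith
  have hlog : Real.logb 2 q = Real.logb 2 θ + k := by
    rw [hqθ, Real.logb_mul (by linarith) hkR.ne', ← Real.rpow_natCast,
      Real.logb_rpow (by norm_num) (by norm_num)]
  have hθlog : θ - 1 ≤ Real.logb 2 θ := by
    rw [Real.le_logb_iff_rpow_le (by norm_num) (by linarith)]
    have := rpow_one_add_le_one_add_mul_self (s := 1) (by norm_num) (p := θ - 1)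
      (by linarith) (by linarith)
    have h2' : (1 : ℝ) + 1 = 2 := by norm_num
    rw [h2'] at this
    linarith
  have h3 := h k
  have h4 : ((2 : ℝ) ^ (k + 1)) * n ≤ ((q : ℝ) - 1) * ((k + 1) * 2 ^ k + q) := by
    have h5 : ((2 ^ (k + 1) * n : ℕ) : ℝ) ≤ (((q - 1) * ((k + 1) * 2 ^ k + q) : ℕ) : ℝ) := by
      exact_mod_cast h3
    push_cast [Nat.cast_sub hq] at h5
    exact h5
  have hq1 : (0 : ℝ) ≤ (q : ℝ) - 1 := by
    have : (1 : ℝ) ≤ q := by exact_mod_cast hq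
    linarith
  have h6 : 2 * (n : ℝ) ≤ ((q : ℝ) - 1) * (k + 1 + θ) := by
    have h7 : (2 : ℝ) ^ k * (2 * n) ≤ 2 ^ k * (((q : ℝ) - 1) * (k + 1 + θ)) := by
      calc (2 : ℝ) ^ k * (2 * n) = 2 ^ (k + 1) * n := by ring
        _ ≤ ((q : ℝ) - 1) * ((k + 1) * 2 ^ k + q) := h4
        _ = ((q : ℝ) - 1) * ((k + 1) * 2 ^ k + θ * 2 ^ k) := by rw [← hqθ]
        _ = _ := by ring
    exact le_of_mul_le_mul_left h7 hkR
  have h8 : ((q : ℝ) - 1) * (k + 1 + θ) ≤ ((q : ℝ) - 1) * (Real.logb 2 q + 2) := by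
    apply mul_le_mul_of_nonneg_left _ hq1
    rw [hlog]
    linarith
  linarith

theorem result {F : Type*} [Field F] [Finite F] (hq : Nat.card F % 4 = 3)
    (h3 : 3 < Nat.card F) :
    IsGreatest {k | HasSpread (Matrix.ProjectiveSpecialLinearGroup (Fin 2) F) k}
      (spread (Matrix.ProjectiveSpecialLinearGroup (Fin 2) F)) ∧
    (spread (Matrix.ProjectiveSpecialLinearGroup (Fin 2) F) : ℝ) ≤
      ((Nat.card F : ℝ) - 1) * (Real.logb 2 (Nat.card F) + 2) / 2 := by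
  have := Fintype.ofFinite F
  rw [Nat.card_eq_fintype_card] at hq h3 ⊢
  have hb : ∀ n, HasSpread (Matrix.ProjectiveSpecialLinearGroup (Fin 2) F) n → ∀ k : ℕ,
      2 ^ (k + 1) * n ≤ (Fintype.card F - 1) * ((k + 1) * 2 ^ k + Fintype.card F) :=
    fun n hn k => bound hq h3 hn k
  have hg : IsGreatest {k | HasSpread (Matrix.ProjectiveSpecialLinearGroup (Fin 2) F) k}
      (spread (Matrix.ProjectiveSpecialLinearGroup (Fin 2) F)) := by
    have hne : {k | HasSpread (Matrix.ProjectiveSpecialLinearGroup (Fin 2) F) k}.Nonempty :=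
      ⟨0, hasSpread_zero _⟩
    have hbdd : BddAbove {k | HasSpread (Matrix.ProjectiveSpecialLinearGroup (Fin 2) F) k} := by
      refine ⟨(Fintype.card F - 1) * ((0 + 1) * 2 ^ 0 + Fintype.card F), ?_⟩
      intro n hn
      have := hb n hn 0
      omega
    exact ⟨Nat.sSup_mem hne hbdd, fun n hn => le_csSup hbdd hn⟩
  exact ⟨hg, log_bound (by omega) (hb _ hg.1)⟩

end Pool.Agent.Results.MP_c74ab0_al.LogUpperBound
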